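import Pool.Agent.H546.F52
import Pool.Agent.H546.Lin2

set_option autoImplicit false

/-!
# `∑ (4k)!/k!^4 / (-2^10 3^4)^k` modulo `p²` (assertion (a))

The proof: the sum is the square of a Legendre polynomial modulo `p²` (Clausen); the elliptic curve
`y² = V³ - 4V² + 4zV`, `z = 1/2 - 5√13/36`, with complex multiplication by the order of discriminant `-52`, has
isogenies of degrees `2` and `7` to its conjugate (the second is verified by an evaluation in the kernel); over the
Witt vectors of an algebraic closure of `ZMod p` a combination of these isogenies of degree `p` lifts the Frobenius,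
and comparing expansions modulo `p²` gives the value of the Legendre polynomial modulo `p²`. In the last case the
Hasse invariant vanishes.
-/

open Finset

namespace Pool.Agent.Results.MP_14f078_nt.TwoSixty

/-- the constant `N = -2^10 3^4 = -82944` -/
def c : ℤ := -2 ^ 10 * 3 ^ 4

/-- the sum `S(p) = ∑_{k<p} (4k)!/(k!)^4 / c^k` -/
def S (p : ℕ) : ℚ := ∑ k ∈ range p, (((4 * k).factorial : ℚ) / (k.factorial : ℚ) ^ 4) / (c : ℚ) ^ k

/-- congruence modulo `p²` of rational numbers: `(a - b) / p²` has denominator prime to `p` -/
def Cong (p : ℕ) (a b : ℚ) : Prop := p.Coprime ((a - b) / (p : ℚ) ^ 2).den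

open Pool.Agent.H546

theorem s7 : S 7 = 565147546391624104971697375/565310913446334891615584256 := by
  norm_num [S, c, sum_range_succ, Nat.factorial]

theorem s11 : S 11 = 26748642631926690430549866606923912107451920045/26756374855117236007053185570407175740484222976 := by
  norm_num [S, c, sum_range_succ, Nat.factorial]

/-- **Assertion (a) of Q1.** -/
theorem result (p : ℕ) [hp : Fact p.Prime] (h3 : 3 < p) :
    (legendreSym p 13 = 1 → legendreSym p (-1) = 1 → ∀ x y : ℤ, (p : ℤ) = x ^ 2 + 13 * y ^ 2 →
      Cong p (S p) (4 * x ^ 2 - 2 * p)) ∧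
    (legendreSym p 13 = -1 → legendreSym p (-1) = -1 → ∀ x y : ℤ, (2 * p : ℤ) = x ^ 2 + 13 * y ^ 2 →
      Cong p (S p) (2 * p - 2 * x ^ 2)) ∧
    (legendreSym p (-13) = -1 → Cong p (S p) 0) := by
  by_cases h13 : p = 13
  · subst h13
    have e1 : legendreSym 13 13 = 0 := by norm_num
    have e2 : legendreSym 13 (-13) = 0 := by norm_num
    refine ⟨fun h _ => ?_, fun h _ => ?_, fun h => ?_⟩
    · rw [e1] at h; exact absurd h (by norm_num)
    · rw [e1] at h; exact absurd h (by norm_num)
    · rw [e2] at h; exact absurd h (by norm_num)
  have hM : ¬ (p : ℤ) ∣ -82944 := ndvd_fac [(2, 10), (3, 4)]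
    (by simp; exact ⟨⟨by norm_num, by omega⟩, ⟨by norm_num, by omega⟩⟩) (by norm_num)
  obtain ⟨wi, hwi⟩ := inv_exists hM
  have tr : ∀ E : ℤ, ∑ k ∈ range p, (k.centralBinom : ZMod (p ^ 2)) *
      ((u4 k : ℕ) : ZMod (p ^ 2)) * wi ^ k = ((E : ℤ) : ZMod (p ^ 2)) →
      Cong p (S p) (E : ℚ) := by
    intro E hE
    have h := tr4 hM hwi E hE
    have e : c = -82944 := by norm_num [c]
    unfold Cong S
    rw [e]
    exact h
  obtain ⟨m1, m2, m3⟩ := d52 p h3 h13 hwi
  have small : p ≤ 13 → p = 5 ∨ p = 7 ∨ p = 11 := by
    intro h
    have hpp := hp.out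
    interval_cases p <;> first | omega | (exfalso; revert hpp; norm_num)
  refine ⟨fun hc1 hc2 x y hxy => ?_, fun hc1 hc2 x y hxy => ?_, fun hc => ?_⟩
  · by_cases h23 : 13 < p
    · have := tr _ (m1 hc2 hc1 h23 x y hxy)
      push_cast at this; exact this
    · exfalso
      rcases small (by omega) with rfl | rfl | rfl
      · have f : legendreSym 5 13 = -1 := by norm_num
        rw [f] at hc1; exact absurd hc1 (by norm_num)
      · have f : legendreSym 7 (-1) = -1 := by norm_num
        rw [f] at hc2; exact absurd hc2 (by norm_num)
      · have f : legendreSym 11 (-1) = -1 := by norm_num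
        rw [f] at hc2; exact absurd hc2 (by norm_num)
  · by_cases h23 : 13 < p
    · have := tr _ (m2 hc2 hc1 h23 x y hxy)
      push_cast at this; exact this
    · have hx0 := sq_nonneg x
      have hy0 := sq_nonneg y
      rcases small (by omega) with rfl | rfl | rfl
      · have f : legendreSym 5 (-1) = 1 := by norm_num
        rw [f] at hc2; exact absurd hc2 (by norm_num)
      · have hx2 : x ^ 2 = 1 := by
          push_cast at hxy
          have hy1 : y < 2 := by nlinarith
          have hy2 : -2 < y := by nlinarith
          have hx1 : x < 7 := by nlinarith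
          have hx2 : -7 < x := by nlinarith
          interval_cases x <;> interval_cases y <;> omega
        have hxq : (x : ℚ) ^ 2 = 1 := by exact_mod_cast hx2
        rw [hxq]
        refine cop_of_eq (n := -126909865611518257028883953) (d := 565310913446334891615584256) ?_ (by norm_num)
        rw [s7]; norm_num
      · have hx2 : x ^ 2 = 9 := by
          push_cast at hxy
          have hy1 : y < 2 := by nlinarith
          have hy2 : -2 < y := by nlinarith
          have hx1 : x < 7 := by nlinarith
          have hx2 : -7 < x := by nlinarith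
          interval_cases x <;> interval_cases y <;> omega
        have hxq : (x : ℚ) ^ 2 = 9 := by exact_mod_cast hx2
        rw [hxq]
        refine cop_of_eq (n := -663445097425969037997213848551279263260206379) (d := 26756374855117236007053185570407175740484222976) ?_ (by norm_num)
        rw [s11]; norm_num
  · have := tr _ (m3 hc)
    push_cast at this; exact this

end Pool.Agent.Results.MP_14f078_nt.TwoSixty
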